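import Pool.Agent.Helper46.T6.Stmts

set_option autoImplicit false

/-!
Module COMP of the project T6 (MP_2f9829_co, blueprint of helper46), general degree `d`: compactness of
the orthogonal group, and the distance from the peak to the other components of the set of maximisers.
-/

open Finset MeasureTheory Filter Topology

namespace Pool.Agent.Helper10.T6

open Pool.Agent.Helper15.T4 (IsPM PM cov IsMat nsq po)
open Pool.Agent.Helper15.T6 Pool.Agent.Helper46.T6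

theorem isCompact_OD (d : ℕ) : IsCompact {O : Md d | OD O} := by
  have h : {O : Md d | OD O} = ((Matrix.orthogonalGroup (Fin d) ℝ : Set (Md d))) := by
    ext A
    rw [SetLike.mem_coe, Matrix.mem_orthogonalGroup_iff]
    rfl
  rw [h]
  exact isCompact_GO d

theorem isCompact_ODK (d K : ℕ) : IsCompact {O : Fin K → Md d | ∀ p, OD (O p)} := by
  have h : {O : Fin K → Md d | ∀ p, OD (O p)} =
      Set.univ.pi fun _ : Fin K => {O : Md d | OD O} := by
    ext O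
    simp
  rw [h]
  exact isCompact_univ_pi fun _ => isCompact_OD d

theorem continuous_pt {d : ℕ} {J : Type} {K : ℕ} (φ : Fin K × Fin 2 ≃ J) :
    Continuous (fun O : Fin K → Md d => pt φ O) := by
  refine continuous_pi fun a => ?_
  unfold pt
  refine continuous_finsetProd _ fun p _ => ?_
  exact ((continuous_apply p).matrix_elem _ _).div_const _

theorem OD_one (d : ℕ) : OD (1 : Md d) := by
  unfold OD
  simp

theorem continuous_dist {d K : ℕ} (s : ℤˣ) (π : Equiv.Perm (Fin K × Fin 2)) :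
    Continuous (fun O : Fin K → Md d => nsq (fun a => u0 d K a - ((s : ℤ) : ℝ) * pt π O a)) := by
  unfold nsq
  refine continuous_finsetSum _ fun a _ => ?_
  exact (continuous_const.sub
    (continuous_const.mul ((continuous_apply a).comp (continuous_pt π)))).pow 2

theorem eq_of_nsq {d K : ℕ} (s : ℤˣ) (π : Equiv.Perm (Fin K × Fin 2)) (O : Fin K → Md d)
    (h : nsq (fun a => u0 d K a - ((s : ℤ) : ℝ) * pt π O a) = 0) (a : Fin K × Fin 2 → Fin d) :
    u0 d K a = ((s : ℤ) : ℝ) * pt π O a := by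
  have h1 : ∑ a, (u0 d K a - ((s : ℤ) : ℝ) * pt π O a) ^ 2 = 0 := h
  have h2 := (Finset.sum_eq_zero_iff_of_nonneg (fun i _ => sq_nonneg _)).mp h1 a
    (Finset.mem_univ a)
  have h3 := pow_eq_zero_iff (two_ne_zero) |>.mp h2
  linarith

theorem unit_cast (s : ℤˣ) : ((s : ℤ) : ℝ) = 1 ∨ ((s : ℤ) : ℝ) = -1 := by
  rcases Int.units_eq_one_or s with h | h <;> simp [h]

/-- One component. -/
theorem comp_one (hSEP : ST_SEP) {d : ℕ} (hd : 2 ≤ d) (K : ℕ) (s : ℤˣ)
    (π : Equiv.Perm (Fin K × Fin 2)) :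
    ∃ δ : ℝ, 0 < δ ∧ ∀ O : Fin K → Md d, (∀ p, OD (O p)) → ¬ Blk π →
      δ ≤ nsq (fun a => u0 d K a - ((s : ℤ) : ℝ) * pt π O a) := by
  by_cases hbad : Blk π
  · exact ⟨1, one_pos, fun O _ h => absurd hbad h⟩
  have hne : {O : Fin K → Md d | ∀ p, OD (O p)}.Nonempty := ⟨fun _ => 1, fun _ => OD_one d⟩
  obtain ⟨O₀, hO₀, hmin⟩ := (isCompact_ODK d K).exists_isMinOn hne
    (continuous_dist s π).continuousOn
  refine ⟨nsq (fun a => u0 d K a - ((s : ℤ) : ℝ) * pt π O₀ a), ?_, fun O hO _ => hmin hO⟩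
  have h0 : 0 ≤ nsq (fun a => u0 d K a - ((s : ℤ) : ℝ) * pt π O₀ a) :=
    Finset.sum_nonneg fun i _ => sq_nonneg _
  rcases h0.lt_or_eq with h | h
  · exact h
  exfalso
  obtain ⟨e, fl, c, h2, -⟩ := hSEP d hd K (Fin K × Fin 2) (Equiv.refl _) π (fun _ => 1) O₀
    ((s : ℤ) : ℝ) (fun _ => OD_one d) hO₀ (unit_cast s) (eq_of_nsq s π O₀ h.symm)
  apply hbad
  intro p
  have key : ∀ j : Fin 2, (π (p, j)).1 = e.symm p := by
    intro j
    have h3 := h2 (e.symm p) (j - fl (e.symm p))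
    rw [Equiv.apply_symm_apply] at h3
    rw [sub_add_cancel] at h3
    rw [← h3]
    rfl
  rw [key 0, key 1]

theorem continuous_nsqm {d : ℕ} : Continuous (fun A : Md d => nsqm A) := by
  unfold nsqm
  refine continuous_finsetSum _ fun i _ => continuous_finsetSum _ fun j _ => ?_
  exact (continuous_id.matrix_elem i j).pow 2

theorem comp_two (hSEP : ST_SEP) {d : ℕ} (hd : 2 ≤ d) (K : ℕ) (ρ : ℝ) (hρ : 0 < ρ) (s : ℤˣ) :
    ∃ δ : ℝ, 0 < δ ∧ ∀ O : Fin K → Md d, (∀ p, OD (O p)) →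
      (∀ c : Fin K → ℤˣ, ∏ p, c p = s → ∃ p, ρ ≤ nsqm (O p - ((c p : ℤ) : ℝ) • 1)) →
      δ ≤ nsq (fun a => u0 d K a - ((s : ℤ) : ℝ) * pt (Equiv.refl _) O a) := by
  set S : Set (Fin K → Md d) := {O | ∀ p, OD (O p)} ∩
    {O | ∀ c : Fin K → ℤˣ, ∏ p, c p = s → ∃ p, ρ ≤ nsqm (O p - ((c p : ℤ) : ℝ) • 1)} with hS
  have hcl : IsClosed {O : Fin K → Md d | ∀ c : Fin K → ℤˣ, ∏ p, c p = s →
      ∃ p, ρ ≤ nsqm (O p - ((c p : ℤ) : ℝ) • 1)} := by
    have : {O : Fin K → Md d | ∀ c : Fin K → ℤˣ, ∏ p, c p = s →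
        ∃ p, ρ ≤ nsqm (O p - ((c p : ℤ) : ℝ) • 1)} =
        ⋂ c : Fin K → ℤˣ, ⋂ (_ : ∏ p, c p = s), ⋃ p : Fin K,
          {O : Fin K → Md d | ρ ≤ nsqm (O p - ((c p : ℤ) : ℝ) • 1)} := by
      ext O
      simp
    rw [this]
    refine isClosed_iInter fun c => isClosed_iInter fun _ => isClosed_iUnion_of_finite fun p => ?_
    refine isClosed_le continuous_const ?_
    exact continuous_nsqm.comp ((continuous_apply p).sub continuous_const)
  have hSc : IsCompact S := (isCompact_ODK d K).inter_right hcl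
  rcases S.eq_empty_or_nonempty with hE | hne
  · refine ⟨1, one_pos, fun O hO hc => ?_⟩
    exfalso
    have : O ∈ S := ⟨hO, hc⟩
    rw [hE] at this
    exact this
  obtain ⟨O₀, hO₀, hmin⟩ := hSc.exists_isMinOn hne
    (continuous_dist s (Equiv.refl (Fin K × Fin 2))).continuousOn
  refine ⟨nsq (fun a => u0 d K a - ((s : ℤ) : ℝ) * pt (Equiv.refl _) O₀ a), ?_,
    fun O hO hc => hmin ⟨hO, hc⟩⟩
  have h0 : 0 ≤ nsq (fun a => u0 d K a - ((s : ℤ) : ℝ) * pt (Equiv.refl _) O₀ a) :=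
    Finset.sum_nonneg fun i _ => sq_nonneg _
  rcases h0.lt_or_eq with h | h
  · exact h
  exfalso
  obtain ⟨e, fl, c, h2, hc1, hc2, hc3⟩ := hSEP d hd K (Fin K × Fin 2) (Equiv.refl _)
    (Equiv.refl _) (fun _ => 1) O₀
    ((s : ℤ) : ℝ) (fun _ => OD_one d) hO₀.1 (unit_cast s) (eq_of_nsq s _ O₀ h.symm)
  have hfl : ∀ p, e p = p ∧ fl p = 0 := by
    intro p
    have h3 := h2 p 0
    simp only [Equiv.refl_apply, Prod.mk.injEq, zero_add] at h3
    exact ⟨h3.1.symm, h3.2.symm⟩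
  have hO : ∀ p, (1 : Md d) = c p • O₀ p := by
    intro p
    have h3 := hc3 p
    rw [(hfl p).1, (hfl p).2, if_pos rfl] at h3
    exact h3
  have hcu : ∀ p, ∃ u : ℤˣ, ((u : ℤ) : ℝ) = c p := by
    intro p
    rcases hc1 p with h | h
    · exact ⟨1, by rw [h]; simp⟩
    · exact ⟨-1, by rw [h]; simp⟩
  choose u hu using hcu
  have hprod : ∏ p, u p = s := by
    have h3 : (((∏ p, u p : ℤˣ) : ℤ) : ℝ) = ((s : ℤ) : ℝ) := by
      rw [← hc2, ← Finset.prod_congr rfl fun p _ => hu p]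
      push_cast
      rfl
    exact Units.ext (by exact_mod_cast h3)
  obtain ⟨p, hp⟩ := hO₀.2 u hprod
  have h4 : O₀ p - ((u p : ℤ) : ℝ) • (1 : Md d) = 0 := by
    rw [hu p, hO p, smul_smul]
    have h5 : c p * c p = 1 := by
      rcases hc1 p with h | h <;> rw [h] <;> norm_num
    rw [h5, one_smul, sub_self]
  rw [h4] at hp
  have h6 : nsqm (0 : Md d) = 0 := by
    unfold nsqm
    simp
  rw [h6] at hp
  linarith

theorem st_COMP (hSEP : ST_SEP) : ST_COMP := by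
  intro d hd K
  refine ⟨?_, ?_⟩
  · choose δ hδ hδ' using fun x : ℤˣ × Equiv.Perm (Fin K × Fin 2) => comp_one hSEP hd K x.1 x.2
    obtain ⟨x₀, -, hx₀⟩ := Finset.exists_min_image (Finset.univ) δ
      ⟨((1 : ℤˣ), (1 : Equiv.Perm (Fin K × Fin 2))), Finset.mem_univ _⟩
    refine ⟨δ x₀, hδ x₀, fun s π O hO hb => ?_⟩
    exact (hx₀ (s, π) (Finset.mem_univ _)).trans (hδ' (s, π) O hO hb)
  · intro ρ hρ
    choose δ hδ hδ' using fun s : ℤˣ => comp_two hSEP hd K ρ hρ s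
    obtain ⟨x₀, -, hx₀⟩ := Finset.exists_min_image (Finset.univ) δ
      ⟨(1 : ℤˣ), Finset.mem_univ _⟩
    refine ⟨δ x₀, hδ x₀, fun s O hO hb => ?_⟩
    exact (hx₀ s (Finset.mem_univ _)).trans (hδ' s O hO hb)

end Pool.Agent.Helper10.T6
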