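import Pool.Agent.Helper46.T6.Stmts

set_option autoImplicit false

/-!
Module EXPD of the project T6 (MP_2f9829_co, blueprint of helper46), general degree `d`: expansion of
the vertex function at the peak.
-/

open Finset MeasureTheory Filter Topology

namespace Pool.Agent.Helper10.T6

open Pool.Agent.Helper15.T4 (IsPM PM cov IsMat nsq po)
open Pool.Agent.Helper15.T6 Pool.Agent.Helper46.T6

section Form

variable {d : ℕ} {J : Type} [Fintype J] [DecidableEq J]

theorem TJ_perm {k : ℕ} (hJ : Fintype.card J = 2 * k) (σ : Equiv.Perm (Fin d))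
    (x : Fin d → (J → Fin d) → ℝ) : TJ J (fun i => x (σ i)) = TJ J x := by
  unfold TJ
  rw [← Equiv.sum_comp (Equiv.mulRight (fun _ : J => σ))]
  refine Finset.sum_congr rfl fun π _ => ?_
  simp only [Equiv.coe_mulRight, Pi.mul_apply, Equiv.Perm.mul_apply]
  rw [Equiv.prod_comp σ (fun i => x i (fun j => π j i))]
  congr 1
  have h : ∀ j, (((Equiv.Perm.sign (π j * σ) : ℤˣ) : ℤ) : ℝ) =
      (((Equiv.Perm.sign (π j) : ℤˣ) : ℤ) : ℝ) * (((Equiv.Perm.sign σ : ℤˣ) : ℤ) : ℝ) := by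
    intro j
    rw [map_mul]
    push_cast
    rfl
  rw [Finset.prod_congr rfl fun j _ => h j, Finset.prod_mul_distrib, Finset.prod_const,
    Finset.card_univ, hJ, pow_mul]
  have h2 : (((Equiv.Perm.sign σ : ℤˣ) : ℤ) : ℝ) ^ 2 = 1 := by
    rcases Int.units_eq_one_or (Equiv.Perm.sign σ) with h | h <;> rw [h] <;> norm_num
  rw [h2, one_pow, mul_one]

theorem TJ_card {k : ℕ} (hJ : Fintype.card J = 2 * k) (S T : Finset (Fin d)) (hST : S.card = T.card)
    (u h : (J → Fin d) → ℝ) :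
    TJ J (fun i => if i ∈ S then h else u) = TJ J (fun i => if i ∈ T then h else u) := by
  set e : {x // x ∈ S} ≃ {x // x ∈ T} := Finset.equivOfCardEq hST
  rw [← TJ_perm hJ e.extendSubtype (fun i => if i ∈ T then h else u)]
  congr 1
  funext i
  by_cases hi : i ∈ S
  · have h1 := e.extendSubtype_mem i hi
    rw [if_pos hi, if_pos h1]
  · have h1 := e.extendSubtype_not_mem i hi
    rw [if_neg hi, if_neg h1]

theorem TJ_add (u h : (J → Fin d) → ℝ) :
    TJ J (fun _ : Fin d => (fun a => u a + h a)) =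
      ∑ S ∈ (univ : Finset (Fin d)).powerset, TJ J (fun i => if i ∈ S then h else u) := by
  unfold TJ
  rw [Finset.sum_comm]
  refine Finset.sum_congr rfl fun π _ => ?_
  rw [← Finset.mul_sum]
  congr 1
  have h1 : ∏ i : Fin d, (u (fun j => π j i) + h (fun j => π j i)) =
      ∏ i : Fin d, (h (fun j => π j i) + u (fun j => π j i)) :=
    Finset.prod_congr rfl fun i _ => add_comm _ _
  rw [h1, Finset.prod_add]
  refine Finset.sum_congr rfl fun S _ => ?_
  have h2 : ∀ i : Fin d, (if i ∈ S then h else u) (fun j => π j i) =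
      S.piecewise (fun i => h (fun j => π j i)) (fun i => u (fun j => π j i)) i := by
    intro i
    unfold Finset.piecewise
    by_cases hi : i ∈ S <;> simp [hi]
  rw [Finset.prod_congr rfl fun i _ => h2 i, Finset.prod_piecewise, Finset.univ_inter]

/-- The form with `h` in the first `k` arguments and `u` in the others. -/
def tk (u h : (J → Fin d) → ℝ) (k : ℕ) : ℝ := TJ J (fun i : Fin d => if (i : ℕ) < k then h else u)

theorem card_lt {k : ℕ} (hk : k ≤ d) : (univ.filter (fun i : Fin d => (i : ℕ) < k)).card = k := by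
  rw [Fin.card_filter_val_lt, min_eq_right hk]

theorem TJ_expand {k : ℕ} (hJ : Fintype.card J = 2 * k) (u h : (J → Fin d) → ℝ) :
    PJ J (fun a => u a + h a) = ∑ m ∈ range (d + 1), ((d.choose m : ℕ) : ℝ) * tk u h m := by
  unfold PJ
  rw [TJ_add]
  have h1 : ∀ S ∈ (univ : Finset (Fin d)).powerset,
      TJ J (fun i => if i ∈ S then h else u) = tk u h S.card := by
    intro S _
    have hS : S.card ≤ d := by
      have := Finset.card_le_univ S
      rwa [Fintype.card_fin] at this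
    unfold tk
    rw [TJ_card hJ S (univ.filter (fun i : Fin d => (i : ℕ) < S.card)) (card_lt hS).symm]
    congr 1
    funext i
    simp
  rw [Finset.sum_congr rfl h1, Finset.sum_powerset_apply_card (fun m => tk u h m)]
  rw [Finset.card_univ, Fintype.card_fin]
  refine Finset.sum_congr rfl fun m _ => ?_
  rw [nsmul_eq_mul]

theorem abs_le_sqrt_nsq {ι : Type} [Fintype ι] (x : ι → ℝ) (i : ι) : |x i| ≤ Real.sqrt (nsq x) := by
  apply Real.abs_le_sqrt
  unfold nsq
  exact Finset.single_le_sum (f := fun i => x i ^ 2) (fun j _ => sq_nonneg _) (Finset.mem_univ i)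

theorem TJ_bound : ∃ C : ℝ, 0 ≤ C ∧ ∀ x : Fin d → (J → Fin d) → ℝ,
    |TJ J x| ≤ C * ∏ i, Real.sqrt (nsq (x i)) := by
  refine ⟨∑ π : J → Equiv.Perm (Fin d), |∏ j, (((Equiv.Perm.sign (π j) : ℤˣ) : ℤ) : ℝ)|,
    by positivity, ?_⟩
  intro x
  unfold TJ
  rw [Finset.sum_mul]
  refine (Finset.abs_sum_le_sum_abs _ _).trans (Finset.sum_le_sum fun π _ => ?_)
  rw [abs_mul]
  refine mul_le_mul_of_nonneg_left ?_ (abs_nonneg _)
  rw [Finset.abs_prod]
  exact Finset.prod_le_prod (fun i _ => abs_nonneg _) fun i _ => abs_le_sqrt_nsq _ _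

theorem tk_bound {C : ℝ} (hC : 0 ≤ C) (hb : ∀ x : Fin d → (J → Fin d) → ℝ,
    |TJ J x| ≤ C * ∏ i, Real.sqrt (nsq (x i))) (u h : (J → Fin d) → ℝ) (hu : nsq u = 1)
    (k : ℕ) (hk : k ≤ d) : |tk u h k| ≤ C * Real.sqrt (nsq h) ^ k := by
  unfold tk
  refine (hb _).trans (mul_le_mul_of_nonneg_left (le_of_eq ?_) hC)
  have h1 : ∀ i : Fin d, Real.sqrt (nsq (if (i : ℕ) < k then h else u)) =
      (fun m : ℕ => if m < k then Real.sqrt (nsq h) else 1) i := by
    intro i
    by_cases hi : (i : ℕ) < k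
    · simp [hi]
    · simp [hi, hu]
  rw [Finset.prod_congr rfl fun i _ => h1 i, Fin.prod_univ_eq_prod_range
    (fun m : ℕ => if m < k then Real.sqrt (nsq h) else 1) d,
    ← Finset.prod_range_mul_prod_Ico _ hk]
  have h2 : ∏ m ∈ range k, (if m < k then Real.sqrt (nsq h) else 1) = Real.sqrt (nsq h) ^ k := by
    rw [Finset.prod_congr rfl fun m hm => if_pos (Finset.mem_range.mp hm), Finset.prod_const,
      Finset.card_range]
  have h3 : ∏ m ∈ Ico k d, (if m < k then Real.sqrt (nsq h) else 1) = 1 := by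
    apply Finset.prod_eq_one
    intro m hm
    rw [if_neg (not_lt.mpr (Finset.mem_Ico.mp hm).1)]
  rw [h2, h3, mul_one]

end Form

theorem qd_pos {d : ℕ} (hd : 1 ≤ d) : 0 < qd d := by
  unfold qd
  have : (0 : ℝ) < d := by exact_mod_cast hd
  positivity

theorem ebd_zero (d K : ℕ) : ebd (b0 : Fin K → BB d) = u0 d K := by
  funext a
  unfold ebd u0 pt b0
  refine Finset.prod_congr rfl fun p _ => ?_
  have h : (Ed (Sum.inl () : BB d)) = (Real.sqrt d)⁻¹ • (1 : Md d) := rfl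
  rw [h]
  rw [Matrix.smul_apply, smul_eq_mul, div_eq_inv_mul]
  rfl

theorem nsq_u0 {d : ℕ} (hd : 1 ≤ d) (K : ℕ) : nsq (u0 d K) = 1 := by
  have hd0 : (0 : ℝ) < d := by exact_mod_cast hd
  set g : (Fin 2 → Fin d) → ℝ := fun c => ((if c 0 = c 1 then (1 : ℝ) else 0) / Real.sqrt d) ^ 2
    with hg
  have h : ∀ a : Fin K × Fin 2 → Fin d, u0 d K a ^ 2 =
      (fun b : Fin K → Fin 2 → Fin d => ∏ p : Fin K, g (b p))
        ((Equiv.curry (Fin K) (Fin 2) (Fin d)) a) := by
    intro a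
    unfold u0 pt
    rw [← Finset.prod_pow]
    refine Finset.prod_congr rfl fun p _ => ?_
    simp only [hg, Matrix.one_apply, Equiv.refl_apply]
    rfl
  unfold nsq
  rw [Finset.sum_congr rfl fun a _ => h a]
  rw [Equiv.sum_comp (Equiv.curry (Fin K) (Fin 2) (Fin d))
    (fun b : Fin K → Fin 2 → Fin d => ∏ p : Fin K, g (b p))]
  have hps : ∑ b : Fin K → Fin 2 → Fin d, ∏ p : Fin K, g (b p) =
      ∏ _p : Fin K, ∑ c : Fin 2 → Fin d, g c := by
    rw [Finset.prod_univ_sum, Fintype.piFinset_univ]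
  rw [hps]
  apply Finset.prod_eq_one
  intro p _
  have h2 : ∀ f : (Fin 2 → Fin d) → ℝ, ∑ c, f c = ∑ i : Fin d, ∑ j : Fin d, f ![i, j] := by
    intro f
    rw [← Finset.sum_product']
    refine Finset.sum_bij' (fun c _ => (c 0, c 1)) (fun q _ => ![q.1, q.2]) ?_ ?_ ?_ ?_ ?_
    · intro c _
      simp
    · intro q _
      simp
    · intro c _
      funext i
      fin_cases i <;> rfl
    · intro q _
      rfl
    · intro c _
      congr 1
      funext i
      fin_cases i <;> rfl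
  rw [h2]
  have h3 : Real.sqrt d ^ 2 = d := Real.sq_sqrt hd0.le
  have h4 : ∀ i j : Fin d, g ![i, j] = if i = j then (1 : ℝ) / d else 0 := by
    intro i j
    simp only [hg, Matrix.cons_val_zero, Matrix.cons_val_one]
    by_cases hij : i = j
    · rw [if_pos hij, if_pos hij, div_pow, h3, one_pow]
    · rw [if_neg hij, if_neg hij]
      simp
  rw [Finset.sum_congr rfl fun i _ => Finset.sum_congr rfl fun j _ => h4 i j]
  simp only [Finset.sum_ite_eq, Finset.mem_univ, if_true, Finset.sum_const, Finset.card_univ,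
    Fintype.card_fin, nsmul_eq_mul]
  field_simp

theorem st_EXPD (hEBT : ST_EBT) : ST_EXPD := by
  intro d hd K
  have hd1 : 1 ≤ d := by omega
  have hJ : Fintype.card (Fin K × Fin 2) = 2 * K := by
    simp [mul_comm]
  obtain ⟨C, hC, hTb⟩ := TJ_bound (d := d) (J := Fin K × Fin 2)
  set D : ℝ := (d : ℝ) with hD
  have hD2 : 2 ≤ D := by rw [hD]; exact_mod_cast hd
  have hD0 : 0 < D := by linarith
  set q : ℝ := qd d ^ K with hqdef
  have hq : 0 < q := pow_pos (qd_pos hd1) K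
  have hT : ∀ h, TD2 (Fin K × Fin 2) (u0 d K) (u0 d K) h = q * ip (u0 d K) h := by
    intro h
    have h1 := hEBT d hd K b0 h
    rw [ebd_zero] at h1
    rw [h1]
    have h2 : ∏ p : Fin K, mud ((b0 : Fin K → BB d) p) = 1 := by
      apply Finset.prod_eq_one
      intro p _
      rfl
    rw [h2, mul_one]
  have hu : nsq (u0 d K) = 1 := nsq_u0 hd1 K
  have huu : ip (u0 d K) (u0 d K) = 1 := by
    rw [← hu]
    unfold ip nsq
    exact Finset.sum_congr rfl fun i _ => (sq _).symm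
  have ht1 : ∀ h, tk (u0 d K) h 1 = q * ip (u0 d K) h := by
    intro h
    rw [← hT h]
    unfold TD2 tk
    have e1 : (fun i : Fin d => if (i : ℕ) < 1 then h else u0 d K) =
        fun i : Fin d => if i ∈ ({⟨0, by omega⟩} : Finset (Fin d)) then h else u0 d K := by
      funext i
      congr 1
      simp [Fin.ext_iff]
    have e2 : (fun i : Fin d => if (i : ℕ) = 0 then u0 d K else if (i : ℕ) = 1 then h
        else u0 d K) =
        fun i : Fin d => if i ∈ ({⟨1, by omega⟩} : Finset (Fin d)) then h else u0 d K := by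
      funext i
      by_cases h0 : (i : ℕ) = 0
      · have h1 : i ∉ ({⟨1, by omega⟩} : Finset (Fin d)) := by
          rw [Finset.mem_singleton]
          intro hh
          rw [hh] at h0
          simp at h0
        rw [if_pos h0, if_neg h1]
      · rw [if_neg h0]
        congr 1
        simp [Fin.ext_iff]
    rw [e1, e2]
    exact TJ_card hJ _ _ (by simp) _ _
  have ht0 : ∀ h, tk (u0 d K) h 0 = q := by
    intro h
    have h1 := hT (u0 d K)
    rw [huu, mul_one] at h1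
    rw [← h1]
    unfold TD2 tk
    congr 1
    funext i
    by_cases h0 : (i : ℕ) = 0 <;> by_cases h2 : (i : ℕ) = 1 <;> simp [h0, h2]
  have ht2 : ∀ h, tk (u0 d K) h 2 = TD2 (Fin K × Fin 2) (u0 d K) h h := by
    intro h
    unfold TD2 tk
    congr 1
    funext i
    by_cases h0 : (i : ℕ) = 0
    · simp [h0]
    · by_cases h2 : (i : ℕ) = 1
      · simp [h2]
      · rw [if_neg (by omega), if_neg h0, if_neg h2]
  set C3 : ℝ := ∑ m ∈ Ico 3 (d + 1), ((d.choose m : ℕ) : ℝ) * C with hC3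
  have hC30 : 0 ≤ C3 := Finset.sum_nonneg fun m _ => by positivity
  set K0 : ℝ := Real.exp (3 / 2 * D) with hK0
  have hK0p : 0 < K0 := Real.exp_pos _
  refine ⟨D ^ 2 / 8 + D / 2 * (3 / 2 * D) ^ 2 + (1 + D) * (K0 * (3 / 2 * D) ^ 3) +
    D * (D - 1) / 2 * (C / q) * (3 / 2 * D * K0) + C3 / q * K0, ?_⟩
  intro h hh
  have hnn : ∀ x : (Fin K × Fin 2 → Fin d) → ℝ, 0 ≤ nsq x :=
    fun x => Finset.sum_nonneg fun i _ => sq_nonneg _
  set N : ℝ := Real.sqrt (nsq h) with hN
  have hN0 : 0 ≤ N := Real.sqrt_nonneg _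
  have hN2 : N ^ 2 = nsq h := Real.sq_sqrt (hnn h)
  have hN1 : N ≤ 1 := by
    rw [hN]
    exact Real.sqrt_le_one.mpr hh
  set a : ℝ := ip (u0 d K) h with ha
  have haN : |a| ≤ N := by
    apply Real.abs_le_sqrt
    have h1 := Finset.sum_mul_sq_le_sq_mul_sq (Finset.univ) (u0 d K) h
    have h2 : ∑ i, u0 d K i ^ 2 = 1 := hu
    rw [h2, one_mul] at h1
    exact h1
  have hnuh : nsq (fun b => u0 d K b + h b) = 1 + 2 * a + N ^ 2 := by
    rw [hN2, ← hu, ha]
    unfold nsq ip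
    rw [Finset.mul_sum, ← Finset.sum_add_distrib, ← Finset.sum_add_distrib]
    exact Finset.sum_congr rfl fun i _ => by ring
  set Tu : ℝ := TD2 (Fin K × Fin 2) (u0 d K) h h with hTu
  set R : ℝ := ∑ m ∈ Ico 3 (d + 1), ((d.choose m : ℕ) : ℝ) * tk (u0 d K) h m with hR
  have hP : PJ (Fin K × Fin 2) (fun b => u0 d K b + h b) =
      q + D * (q * a) + D * (D - 1) / 2 * Tu + R := by
    rw [TJ_expand hJ, ← Finset.sum_range_add_sum_Ico _ (by omega : 3 ≤ d + 1), ← hR]
    rw [Finset.sum_range_succ, Finset.sum_range_succ, Finset.sum_range_succ,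
      Finset.sum_range_zero, ht0, ht1, ht2, ← ha, ← hTu]
    rw [Nat.choose_zero_right, Nat.choose_one_right, Nat.cast_choose_two ℝ d]
    push_cast
    ring
  have hRb : |R| ≤ C3 * N ^ 3 := by
    rw [hR, hC3, Finset.sum_mul]
    refine (Finset.abs_sum_le_sum_abs _ _).trans (Finset.sum_le_sum fun m hm => ?_)
    obtain ⟨hm1, hm2⟩ := Finset.mem_Ico.mp hm
    rw [abs_mul, abs_of_nonneg (by positivity : (0 : ℝ) ≤ ((d.choose m : ℕ) : ℝ)), mul_assoc]
    refine mul_le_mul_of_nonneg_left ?_ (by positivity)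
    refine (tk_bound hC hTb (u0 d K) h hu m (by omega)).trans ?_
    refine mul_le_mul_of_nonneg_left ?_ hC
    exact pow_le_pow_of_le_one hN0 hN1 hm1
  set y : ℝ := -D * a - D / 2 * N ^ 2 with hy
  have hfv : fvd d K (fun b => u0 d K b + h b) =
      PJ (Fin K × Fin 2) (fun b => u0 d K b + h b) * Real.exp y / q := by
    unfold fvd
    have hE : -((d : ℝ) / 2) * (nsq (fun b => u0 d K b + h b) - 1) = y := by
      rw [hnuh, hy, hD]
      ring
    rw [hE]
  rw [hfv]
  have hNN : N ^ 2 ≤ N := by nlinarith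
  have hyN : |y| ≤ 3 / 2 * D * N := by
    rw [abs_le] at haN ⊢
    have h1 : D * N ^ 2 ≤ D * N := mul_le_mul_of_nonneg_left hNN hD0.le
    have h2 : D * a ≤ D * N := mul_le_mul_of_nonneg_left haN.2 hD0.le
    have h3 : D * (-N) ≤ D * a := mul_le_mul_of_nonneg_left haN.1 hD0.le
    have h4 : 0 ≤ D * N ^ 2 := by positivity
    constructor <;> rw [hy] <;> nlinarith
  have hy9 : |y| ≤ 3 / 2 * D := by nlinarith
  have hexp : Real.exp |y| ≤ K0 := Real.exp_le_exp.mpr hy9
  have hEK : Real.exp y ≤ K0 := (Real.exp_le_exp.mpr (le_abs_self y)).trans hexp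
  have hr3 : |Real.exp y - (1 + y + y ^ 2 / 2)| ≤ K0 * (3 / 2 * D) ^ 3 * N ^ 3 := by
    have h1 := Complex.norm_exp_sub_sum_le_norm_mul_exp (y : ℂ) 3
    have h2 : Complex.exp (y : ℂ) - ∑ k ∈ range 3, (y : ℂ) ^ k / (k.factorial : ℂ) =
        ((Real.exp y - (1 + y + y ^ 2 / 2) : ℝ) : ℂ) := by
      simp only [Finset.sum_range_succ, Finset.sum_range_zero, Nat.factorial]
      push_cast
      ring
    rw [h2, Complex.norm_real, Complex.norm_real, Real.norm_eq_abs, Real.norm_eq_abs] at h1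
    calc |Real.exp y - (1 + y + y ^ 2 / 2)| ≤ |y| ^ 3 * Real.exp |y| := h1
      _ ≤ (3 / 2 * D * N) ^ 3 * K0 := by gcongr
      _ = K0 * (3 / 2 * D) ^ 3 * N ^ 3 := by ring
  have hr1 : |Real.exp y - 1| ≤ 3 / 2 * D * K0 * N := by
    have h1 := Complex.norm_exp_sub_sum_le_norm_mul_exp (y : ℂ) 1
    have h2 : Complex.exp (y : ℂ) - ∑ k ∈ range 1, (y : ℂ) ^ k / (k.factorial : ℂ) =
        ((Real.exp y - 1 : ℝ) : ℂ) := by
      simp only [Finset.sum_range_succ, Finset.sum_range_zero, Nat.factorial]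
      push_cast
      ring
    rw [h2, Complex.norm_real, Complex.norm_real, Real.norm_eq_abs, Real.norm_eq_abs] at h1
    calc |Real.exp y - 1| ≤ |y| ^ 1 * Real.exp |y| := h1
      _ ≤ (3 / 2 * D * N) ^ 1 * K0 := by gcongr
      _ = 3 / 2 * D * K0 * N := by ring
  have hQ : Qd d K h = D * N ^ 2 - D * (D - 1) * Tu / q + D ^ 2 * a ^ 2 := by
    unfold Qd
    rw [← hN2]
  have key : PJ (Fin K × Fin 2) (fun b => u0 d K b + h b) * Real.exp y / q -
      (1 - Qd d K h / 2) =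
      (D ^ 2 / 8 * N ^ 4 + D / 2 * a * y ^ 2 +
        (1 + D * a) * (Real.exp y - (1 + y + y ^ 2 / 2))) +
      D * (D - 1) / 2 * (Tu / q) * (Real.exp y - 1) + R / q * Real.exp y := by
    rw [hP, hQ]
    generalize hX : Real.exp y = X
    rw [hy]
    field_simp
    ring
  rw [key]
  have hw : |Tu| ≤ C * N ^ 2 := by
    rw [hTu, ← ht2 h]
    exact tk_bound hC hTb (u0 d K) h hu 2 hd
  have hN4 : N ^ 4 ≤ N ^ 3 := by
    have : N ^ 4 = N ^ 3 * N := by ring
    rw [this]
    nlinarith [pow_nonneg hN0 3]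
  have b1 : |D ^ 2 / 8 * N ^ 4 + D / 2 * a * y ^ 2 +
      (1 + D * a) * (Real.exp y - (1 + y + y ^ 2 / 2))| ≤
      (D ^ 2 / 8 + D / 2 * (3 / 2 * D) ^ 2 + (1 + D) * (K0 * (3 / 2 * D) ^ 3)) * N ^ 3 := by
    have c1 : |D ^ 2 / 8 * N ^ 4| ≤ D ^ 2 / 8 * N ^ 3 := by
      rw [abs_of_nonneg (by positivity)]
      exact mul_le_mul_of_nonneg_left hN4 (by positivity)
    have c2 : |D / 2 * a * y ^ 2| ≤ D / 2 * (3 / 2 * D) ^ 2 * N ^ 3 := by
      rw [abs_mul, abs_mul, abs_pow, abs_of_pos (by positivity : (0 : ℝ) < D / 2)]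
      calc D / 2 * |a| * |y| ^ 2 ≤ D / 2 * N * (3 / 2 * D * N) ^ 2 := by gcongr
        _ = D / 2 * (3 / 2 * D) ^ 2 * N ^ 3 := by ring
    have c3 : |(1 + D * a) * (Real.exp y - (1 + y + y ^ 2 / 2))| ≤
        (1 + D) * (K0 * (3 / 2 * D) ^ 3) * N ^ 3 := by
      rw [abs_mul]
      have d1 : |1 + D * a| ≤ 1 + D := by
        have h1 : |D * a| ≤ D * 1 := by
          rw [abs_mul, abs_of_pos hD0]
          exact mul_le_mul_of_nonneg_left (haN.trans hN1) hD0.le
        rw [abs_le] at h1 ⊢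
        constructor <;> linarith [h1.1, h1.2]
      calc |1 + D * a| * |Real.exp y - (1 + y + y ^ 2 / 2)| ≤
          (1 + D) * (K0 * (3 / 2 * D) ^ 3 * N ^ 3) := by gcongr
        _ = (1 + D) * (K0 * (3 / 2 * D) ^ 3) * N ^ 3 := by ring
    calc _ ≤ |D ^ 2 / 8 * N ^ 4| + |D / 2 * a * y ^ 2| +
          |(1 + D * a) * (Real.exp y - (1 + y + y ^ 2 / 2))| := abs_add_three _ _ _
      _ ≤ D ^ 2 / 8 * N ^ 3 + D / 2 * (3 / 2 * D) ^ 2 * N ^ 3 +
          (1 + D) * (K0 * (3 / 2 * D) ^ 3) * N ^ 3 := by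
          linarith
      _ = _ := by ring
  have hDD : 0 ≤ D * (D - 1) / 2 := by
    have : 0 ≤ D - 1 := by linarith
    positivity
  have b2 : |D * (D - 1) / 2 * (Tu / q) * (Real.exp y - 1)| ≤
      D * (D - 1) / 2 * (C / q) * (3 / 2 * D * K0) * N ^ 3 := by
    rw [abs_mul, abs_mul, abs_of_nonneg hDD, abs_div, abs_of_pos hq]
    calc D * (D - 1) / 2 * (|Tu| / q) * |Real.exp y - 1| ≤
        D * (D - 1) / 2 * (C * N ^ 2 / q) * (3 / 2 * D * K0 * N) := by gcongr
      _ = D * (D - 1) / 2 * (C / q) * (3 / 2 * D * K0) * N ^ 3 := by ring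
  have b3 : |R / q * Real.exp y| ≤ C3 / q * K0 * N ^ 3 := by
    rw [abs_mul, abs_div, abs_of_pos hq, abs_of_pos (Real.exp_pos _)]
    calc |R| / q * Real.exp y ≤ C3 * N ^ 3 / q * K0 := by gcongr
      _ = C3 / q * K0 * N ^ 3 := by ring
  refine (abs_add_three _ _ _).trans ?_
  calc _ ≤ (D ^ 2 / 8 + D / 2 * (3 / 2 * D) ^ 2 + (1 + D) * (K0 * (3 / 2 * D) ^ 3)) * N ^ 3 +
        D * (D - 1) / 2 * (C / q) * (3 / 2 * D * K0) * N ^ 3 + C3 / q * K0 * N ^ 3 := by
          linarith [b1, b2, b3]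
    _ = _ := by ring

end Pool.Agent.Helper10.T6
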